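import Pool.Agent.Helper68.AddTop

/-!
# Adjoining a top element to an attainable chain by a one-dimensional extension
-/

set_option autoImplicit false

namespace Pool.Agent.Results.MP_282bcf_an.OneDimExtension

open Pool.Agent.Helper68

universe u v

/-- Let `A` be a bounded operator on a nonzero separable complex Hilbert space `H` whose closed
invariant subspaces are totally ordered.  There are a number `l` and a vector `x` such that the
closed invariant subspaces of `B (h, c) = (A h + c x, l c)` on the Hilbert space sum of `H` and the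
complex line are exactly the spaces `M + 0`, `M` a closed invariant subspace of `A`, and the whole
space.  So for every totally ordered `L` order-isomorphic to `Lat A` the chain `L + 1` (that is
`WithTop L`) is order-isomorphic to `Lat B`. -/
theorem result (H : Type u) [NormedAddCommGroup H] [InnerProductSpace ℂ H] [CompleteSpace H]
    [TopologicalSpace.SeparableSpace H] [Nontrivial H] (A : H →L[ℂ] H)
    (hA : ∀ M N : Submodule ℂ H, IsClosed (M : Set H) → (∀ y ∈ M, A y ∈ M) →
      IsClosed (N : Set H) → (∀ y ∈ N, A y ∈ N) → M ≤ N ∨ N ≤ M) :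
    ∃ (l : ℂ) (x : H) (B : WithLp 2 (H × ℂ) →L[ℂ] WithLp 2 (H × ℂ)),
      (∀ (h : H) (c : ℂ), B (WithLp.toLp 2 (h, c)) = WithLp.toLp 2 (A h + c • x, l * c)) ∧
      (∀ N : Submodule ℂ (WithLp 2 (H × ℂ)),
        (IsClosed (N : Set (WithLp 2 (H × ℂ))) ∧ ∀ z ∈ N, B z ∈ N) ↔
          (N = ⊤ ∨ ∃ M : Submodule ℂ H, IsClosed (M : Set H) ∧ (∀ y ∈ M, A y ∈ M) ∧
            (N : Set (WithLp 2 (H × ℂ))) = {z | z.fst ∈ M ∧ z.snd = 0})) ∧
      ∀ (L : Type v) [LinearOrder L],
        Nonempty (L ≃o {M : Submodule ℂ H // IsClosed (M : Set H) ∧ ∀ y ∈ M, A y ∈ M}) →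
        Nonempty (WithTop L ≃o {N : Submodule ℂ (WithLp 2 (H × ℂ)) //
          IsClosed (N : Set (WithLp 2 (H × ℂ))) ∧ ∀ z ∈ N, B z ∈ N}) := by
  have htot : ∀ M N : Submodule ℂ H, IsInv A M → IsInv A N → M ≤ N ∨ N ≤ M :=
    fun M N hM hN => hA M N hM.1 hM.2 hN.1 hN.2
  obtain ⟨l, x, hx⟩ := exists_point_vector A htot
  have hee : ∀ z : Ext H, ee H z = (z.fst, z.snd) := fun z => rfl
  refine ⟨l, x, extOp A l x, ?_, ?_, ?_⟩
  · intro h c
    apply (ee H).injective
    rw [ee_extOp, hee, hee]
    rfl
  · intro N
    constructor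
    · rintro ⟨hN, hNi⟩
      rcases up_or_top A l x hx N hN hNi with h | ⟨M, hM, hNM⟩
      · exact Or.inl h
      · right
        refine ⟨M, hM.1, hM.2, ?_⟩
        ext z
        rw [hNM, SetLike.mem_coe, mem_up, hee]
        rfl
    · rintro (h | ⟨M, hM, hMi, hNM⟩)
      · rw [h]
        exact ⟨by simp, fun z _ => trivial⟩
      · have e : N = up M := by
          apply SetLike.coe_injective
          rw [hNM]
          ext z
          rw [SetLike.mem_coe, mem_up, hee]
          rfl
        rw [e]
        exact up_isInv ⟨hM, hMi⟩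
  · rintro L _ ⟨e⟩
    let f : WithTop L → {N : Submodule ℂ (Ext H) // IsClosed (N : Set (Ext H)) ∧
        ∀ z ∈ N, extOp A l x z ∈ N} := fun s => match s with
      | some a => ⟨up (e a).1, up_isInv (e a).2⟩
      | none => ⟨⊤, by simp, fun z _ => trivial⟩
    have hmono : StrictMono f := by
      intro a b hab
      induction a using WithTop.recTopCoe with
      | top => exact absurd hab not_top_lt
      | coe a =>
        induction b using WithTop.recTopCoe with
        | top => exact up_lt_top (e a).1
        | coe b =>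
          have hab' : a < b := WithTop.coe_lt_coe.1 hab
          have h1 : e a < e b := e.lt_iff_lt.2 hab'
          have h2 : (e a).1 < (e b).1 := h1
          show up (e a).1 < up (e b).1
          rw [lt_iff_le_not_ge] at h2 ⊢
          rw [up_le_up, up_le_up]
          exact h2
    have hsurj : Function.Surjective f := by
      rintro ⟨N, hN, hNi⟩
      rcases up_or_top A l x hx N hN hNi with h | ⟨M, hM, hNM⟩
      · refine ⟨⊤, ?_⟩
        apply Subtype.ext
        exact h.symm
      · refine ⟨((e.symm ⟨M, hM⟩ : L) : WithTop L), ?_⟩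
        apply Subtype.ext
        show up (e (e.symm ⟨M, hM⟩)).1 = N
        rw [e.apply_symm_apply, hNM]
    exact ⟨hmono.orderIsoOfSurjective f hsurj⟩

end Pool.Agent.Results.MP_282bcf_an.OneDimExtension
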